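import Pool.Agent.Helper66.PU.Defs
import Pool.Agent.Helper81.MT.OneDimU
import Pool.Agent.Helper63.MT.SqfreeU

/-!
# Project PU, module PU-O: the one-dimensional sums, uniformly in the modulus
-/

set_option autoImplicit false

open Finset

namespace Pool.Agent.Helper56.PU

open Pool.Agent.Helper1.MT Pool.Agent.Helper28.MT Pool.Agent.Helper81.MT

/-- A product of `1 - 1/k` over a finite set of integers `k ≥ 2`. -/
theorem prod_one_sub (n : ℕ) : ∀ S : Finset ℕ, S.card = n → (∀ k ∈ S, 2 ≤ k) →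
    1 / ((n : ℝ) + 1) ≤ ∏ k ∈ S, (1 - 1 / (k : ℝ)) := by
  induction n with
  | zero =>
    intro S hS _
    rw [Finset.card_eq_zero.1 hS]
    simp
  | succ n ih =>
    intro S hS h2
    have hne : S.Nonempty := by
      rw [← Finset.card_pos]
      omega
    set m := S.max' hne with hm
    have hmS : m ∈ S := S.max'_mem hne
    have hcard : (S.erase m).card = n := by
      rw [Finset.card_erase_of_mem hmS, hS]
      rfl
    have hsub : S ⊆ Icc 2 m := by
      intro k hk
      rw [mem_Icc]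
      exact ⟨h2 k hk, S.le_max' k hk⟩
    have hm1 : n + 2 ≤ m := by
      have h3 := Finset.card_le_card hsub
      rw [hS, Nat.card_Icc] at h3
      have := h2 m hmS
      omega
    have hm1' : (n : ℝ) + 2 ≤ m := by exact_mod_cast hm1
    have h4 := ih (S.erase m) hcard (fun k hk => h2 k (Finset.mem_of_mem_erase hk))
    rw [← Finset.mul_prod_erase S _ hmS]
    have h5 : ((n : ℝ) + 1) / (n + 2) ≤ 1 - 1 / (m : ℝ) := by
      have h6 : 1 / (m : ℝ) ≤ 1 / ((n : ℝ) + 2) := one_div_le_one_div_of_le (by positivity) hm1'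
      have h7 : ((n : ℝ) + 1) / (n + 2) = 1 - 1 / ((n : ℝ) + 2) := by
        field_simp
        ring
      rw [h7]
      linarith
    have h8 : (1 : ℝ) / (((n + 1 : ℕ) : ℝ) + 1) = ((n : ℝ) + 1) / (n + 2) * (1 / ((n : ℝ) + 1)) := by
      push_cast
      field_simp
      ring
    rw [h8]
    apply mul_le_mul h5 h4 (by positivity)
    exact le_trans (by positivity) h5

theorem card_primeFactors_le {W : ℕ} (hW : 0 < W) :
    (W.primeFactors.card : ℝ) ≤ 2 * Real.log W := by
  have h1 : 2 ^ W.primeFactors.card ≤ W := by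
    calc 2 ^ W.primeFactors.card = ∏ _p ∈ W.primeFactors, 2 := by rw [Finset.prod_const]
      _ ≤ ∏ p ∈ W.primeFactors, p :=
        Finset.prod_le_prod' fun p hp => (Nat.prime_of_mem_primeFactors hp).two_le
      _ ≤ W := Nat.le_of_dvd hW (Nat.prod_primeFactors_dvd W)
  have h2 : ((2 : ℝ)) ^ W.primeFactors.card ≤ W := by exact_mod_cast h1
  have h3 := Real.log_le_log (by positivity) h2
  rw [Real.log_pow] at h3
  have h4 : (1 / 2 : ℝ) ≤ Real.log 2 := by linarith [Real.log_two_gt_d9]
  have h5 : (0 : ℝ) ≤ (W.primeFactors.card : ℝ) := by positivity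
  nlinarith

theorem totient_ge' {W : ℕ} (hW : 0 < W) :
    1 / (2 * (1 + Real.log W)) ≤ (W.totient : ℝ) / W := by
  have hW' : (0 : ℝ) < W := by exact_mod_cast hW
  have h1 : (W.totient : ℝ) / W = ∏ p ∈ W.primeFactors, (1 - 1 / (p : ℝ)) := by
    have h2 := Nat.totient_eq_mul_prod_factors W
    have h3 : (W.totient : ℝ) = W * ∏ p ∈ W.primeFactors, (1 - (p : ℝ)⁻¹) := by
      have := congrArg (Rat.cast : ℚ → ℝ) h2
      push_cast at this
      exact this
    rw [h3, mul_div_cancel_left₀ _ hW'.ne']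
    simp only [one_div]
  rw [h1]
  refine le_trans ?_ (prod_one_sub _ W.primeFactors rfl
    (fun p hp => (Nat.prime_of_mem_primeFactors hp).two_le))
  apply one_div_le_one_div_of_le (by positivity)
  have := card_primeFactors_le hW
  linarith

/-- PU-O. -/
theorem oneDimW : Pool.Agent.Helper66.PU.OneDimW := by
  obtain ⟨C, hC, hS⟩ := Pool.Agent.Helper63.MT.sqfreeSumU
  intro K J D0 A hK hJ hD hA
  have hκ : 0 < Kp K J := by
    have : 0 < K := hK
    unfold Kp
    positivity
  -- the condition on x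
  have hx : ∀ᶠ x : ℝ in Filter.atTop, 3 ≤ lev x ∧
      160 * Kp K J * (C + 1) * (1 + A * Real.log (Real.log x)) ^ 3 ≤ Real.log (lev x) := by
    have h1 : ∀ᶠ x : ℝ in Filter.atTop, (3 : ℝ) ≤ x ^ (1 / 81 : ℝ) - 1 :=
      ((tendsto_rpow_atTop (by norm_num : (0 : ℝ) < 1 / 81)).eventually_ge_atTop 4).mono
        fun x hx => by linarith
    have h2 : ∀ᶠ x : ℝ in Filter.atTop,
        160 * Kp K J * (C + 1) * (1 + A * Real.log (Real.log x)) ^ 3 ≤
          1 / 81 * Real.log x - 1 := by
      have h3 : (fun y : ℝ => 160 * Kp K J * (C + 1) * (1 + A) ^ 3 * Real.log y ^ 3 + 1)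
          =o[Filter.atTop] fun y : ℝ => y := by
        refine Asymptotics.IsLittleO.add ?_ (Asymptotics.isLittleO_const_id_atTop _)
        exact (Real.isLittleO_pow_log_id_atTop (n := 3)).const_mul_left _
      have h4 := (h3.bound (by norm_num : (0 : ℝ) < 1 / 81))
      have h5 := Real.tendsto_log_atTop.eventually
        (h4.and (Filter.eventually_ge_atTop (Real.exp 1)))
      filter_upwards [h5] with x hx
      obtain ⟨h6, h7⟩ := hx
      have h70 : 0 < Real.log x := lt_of_lt_of_le (Real.exp_pos 1) h7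
      rw [Real.norm_eq_abs, Real.norm_eq_abs, abs_of_nonneg h70.le] at h6
      have h8 := (abs_le.1 h6).2
      have h9 : 1 ≤ Real.log (Real.log x) := by
        rw [Real.le_log_iff_exp_le h70]
        exact h7
      have h10 : (1 + A * Real.log (Real.log x)) ^ 3 ≤ ((1 + A) * Real.log (Real.log x)) ^ 3 := by
        apply pow_le_pow_left₀ (by positivity)
        nlinarith
      have h11 : 160 * Kp K J * (C + 1) * (1 + A * Real.log (Real.log x)) ^ 3 ≤
          160 * Kp K J * (C + 1) * ((1 + A) * Real.log (Real.log x)) ^ 3 :=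
        mul_le_mul_of_nonneg_left h10 (by positivity)
      have h12 : 160 * Kp K J * (C + 1) * ((1 + A) * Real.log (Real.log x)) ^ 3 =
          160 * Kp K J * (C + 1) * (1 + A) ^ 3 * Real.log (Real.log x) ^ 3 := by ring
      linarith
    filter_upwards [h1, h2, Filter.eventually_ge_atTop (3 : ℝ)] with x hx1 hx2 hx3
    have hx0 : 0 < x := by linarith
    have hf : x ^ (1 / 81 : ℝ) - 1 < (lev x : ℝ) := by
      have := Nat.lt_floor_add_one (x ^ (1 / 81 : ℝ))
      unfold lev
      linarith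
    have h3 : (3 : ℝ) < lev x := lt_of_le_of_lt hx1 hf
    refine ⟨by exact_mod_cast h3.le, hx2.trans ?_⟩
    have h4 : x ^ (1 / 81 : ℝ) / Real.exp 1 ≤ lev x := by
      rw [div_le_iff₀ (Real.exp_pos 1)]
      have h5 : (2 : ℝ) ≤ Real.exp 1 := by linarith [Real.add_one_le_exp (1 : ℝ)]
      nlinarith
    have h5 : 0 < x ^ (1 / 81 : ℝ) := Real.rpow_pos_of_pos hx0 _
    have h6 := Real.log_le_log (by positivity) h4
    rw [Real.log_div h5.ne' (Real.exp_pos 1).ne', Real.log_exp, Real.log_rpow hx0] at h6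
    exact h6
  obtain ⟨X0, hX0⟩ := Filter.eventually_atTop.1 hx
  refine ⟨max 3 X0, le_max_left _ _, fun x hxx W hWpos hsmall hWx => ?_⟩
  have hx3 : (3 : ℝ) ≤ x := (le_max_left _ _).trans hxx
  obtain ⟨hR3, hbig⟩ := hX0 x ((le_max_right _ _).trans hxx)
  obtain ⟨c, hc1, hc2, hc⟩ := hS W hWpos
  have hW0 : (0 : ℝ) < W := by exact_mod_cast hWpos
  have hlW0 : 0 ≤ Real.log W := Real.log_natCast_nonneg W
  have hφ := totient_ge' hWpos
  have hφ0 : 0 < (W.totient : ℝ) / W := lt_of_lt_of_le (by positivity) hφ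
  have hc0 : 1 / (8 * (1 + Real.log W)) ≤ c := by
    refine le_trans ?_ hc1
    have e1 : (W.totient : ℝ) / (4 * W) = (W.totient : ℝ) / W / 4 := by
      rw [div_div, mul_comm (4 : ℝ)]
    have e2 : 1 / (8 * (1 + Real.log W)) = 1 / (2 * (1 + Real.log W)) / 4 := by
      rw [div_div]
      congr 1
      ring
    rw [e1, e2]
    exact div_le_div_of_nonneg_right hφ (by norm_num)
  have hinv : (W : ℝ) / W.totient ≤ 2 * (1 + Real.log W) := by
    have h1 : (W : ℝ) / W.totient = ((W.totient : ℝ) / W)⁻¹ := by rw [inv_div]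
    rw [h1]
    have h2 := inv_anti₀ (by positivity) hφ
    rwa [one_div, inv_inv] at h2
  have hlogx : 1 ≤ Real.log x := by
    rw [Real.le_log_iff_exp_le (by linarith)]
    linarith [Real.exp_one_lt_d9]
  have hllx : 0 ≤ Real.log (Real.log x) := Real.log_nonneg hlogx
  have hlW : Real.log W ≤ A * Real.log (Real.log x) := by
    have h1 := Real.log_le_log hW0 hWx
    rwa [Real.log_rpow (by linarith)] at h1
  have hW1 : 0 < (W : ℝ) / W.totient := by
    have h1 : (W : ℝ) / W.totient = ((W.totient : ℝ) / W)⁻¹ := by rw [inv_div]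
    rw [h1]
    exact inv_pos.2 hφ0
  have hC' : 0 < C * ((W : ℝ) / W.totient) * (1 + Real.log W) := by positivity
  have hlR : 0 ≤ Real.log (lev x) := Real.log_natCast_nonneg _
  set l := 1 + Real.log W with hl
  have hl1 : 1 ≤ l := by linarith
  have hbig' : 160 * Kp K J * (C + 1) * l ^ 3 ≤ Real.log (lev x) := by
    refine le_trans ?_ hbig
    apply mul_le_mul_of_nonneg_left _ (by positivity)
    exact pow_le_pow_left₀ (by linarith) (by linarith) 3
  have hcR : 1 / (8 * l) * (160 * Kp K J * (C + 1) * l ^ 3) ≤ c * Real.log (lev x) :=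
    mul_le_mul hc0 hbig' (by positivity) (le_trans (by positivity) hc0)
  have he : 1 / (8 * l) * (160 * Kp K J * (C + 1) * l ^ 3) = 20 * Kp K J * (C + 1) * l ^ 2 := by
    field_simp
    ring
  rw [he] at hcR
  have hl2 : 1 ≤ l ^ 2 := one_le_pow₀ hl1
  have hcond : 10 * Kp K J * (C * ((W : ℝ) / W.totient) * l) ≤ c * Real.log (lev x) := by
    calc 10 * Kp K J * (C * ((W : ℝ) / W.totient) * l) ≤
        10 * Kp K J * ((C + 1) * (2 * l) * l) := by
          apply mul_le_mul_of_nonneg_left _ (by positivity)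
          apply mul_le_mul_of_nonneg_right _ (by linarith)
          exact mul_le_mul (by linarith) hinv hW1.le (by linarith)
      _ = 20 * Kp K J * (C + 1) * l ^ 2 := by ring
      _ ≤ c * Real.log (lev x) := hcR
  obtain ⟨g1, g2, g3, g4, g5, g6, g7⟩ := core hK hJ hD hsmall hR3 hC' hc hcond
  refine ⟨c, hc1, hc2, g1, g2, g3, g4, g5, g6, g7, ?_⟩
  have h1 : 20 * Kp K J ≤ c * Real.log (lev x) := by
    refine le_trans ?_ hcR
    have : 1 ≤ (C + 1) * l ^ 2 := by nlinarith
    calc 20 * Kp K J = 20 * Kp K J * 1 := by ring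
      _ ≤ 20 * Kp K J * ((C + 1) * l ^ 2) := mul_le_mul_of_nonneg_left this (by positivity)
      _ = 20 * Kp K J * (C + 1) * l ^ 2 := by ring
  calc (1 : ℝ) ≤ 9 / 10 / Kp K J * (20 * Kp K J) := by
        have : 9 / 10 / Kp K J * (20 * Kp K J) = 18 := by
          field_simp
          norm_num
        rw [this]
        norm_num
    _ ≤ 9 / 10 / Kp K J * (c * Real.log (lev x)) := mul_le_mul_of_nonneg_left h1 (by positivity)

end Pool.Agent.Helper56.PU
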